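import Pool.Agent.H63.BI2

set_option autoImplicit false

namespace Pool.Agent.Results.MP_5cf697_lc.Square

open Pool.Agent.H63.BI

theorem result : ∃ (V : Type) (_ : Finite V) (_ : Nonempty V) (Γ : SimpleGraph V),
    Subgroup.center (MG Γ) = ⊥ ∧ ¬ BiInt LG LA (MG Γ) ℕ :=
  ⟨Bool ⊕ Bool, inferInstance, inferInstance, C4, center_C4, not_biInt iso⟩

end Pool.Agent.Results.MP_5cf697_lc.Square
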